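import Mathlib

/-! Project ZD: products of binomial coefficients. -/

set_option autoImplicit false

namespace Pool.Agent.Helper42.ZD

open Finset

/-- Exponent vectors of total degree less than `X`. -/
def mon (r X : ℕ) : Finset (Fin r → ℕ) :=
  (Fintype.piFinset fun _ : Fin r => range X).filter fun a => ∑ i, a i < X

theorem mem_mon {r X : ℕ} {a : Fin r → ℕ} : a ∈ mon r X ↔ ∑ i, a i < X := by
  unfold mon
  rw [mem_filter, Fintype.mem_piFinset]
  refine ⟨fun h => h.2, fun h => ⟨fun i => mem_range.2 ?_, h⟩⟩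
  exact (single_le_sum (f := a) (fun j _ => Nat.zero_le _) (mem_univ i)).trans_lt h

theorem card_mon_le (r X : ℕ) : (mon r X).card ≤ X ^ r := by
  unfold mon
  refine (card_filter_le _ _).trans ?_
  rw [Fintype.card_piFinset]
  simp

theorem le_card_mon (r X : ℕ) (hX : 1 ≤ X) : ((X - 1) / r + 1) ^ r ≤ (mon r X).card := by
  have h : (Fintype.piFinset fun _ : Fin r => range ((X - 1) / r + 1)) ⊆ mon r X := by
    intro a ha
    rw [Fintype.mem_piFinset] at ha
    rw [mem_mon]
    have h1 : ∑ i, a i ≤ ∑ _i : Fin r, (X - 1) / r :=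
      sum_le_sum fun i _ => by
        have := mem_range.1 (ha i)
        omega
    rw [sum_const, card_univ, Fintype.card_fin, smul_eq_mul] at h1
    have h2 := Nat.mul_div_le (X - 1) r
    omega
  have h1 := card_le_card h
  rw [Fintype.card_piFinset] at h1
  simpa using h1

/-- Product of binomial coefficients. -/
def bc {r : ℕ} (a c : Fin r → ℕ) : ℕ := ∏ i, (c i).choose (a i)

theorem bc_self {r : ℕ} (a : Fin r → ℕ) : bc a a = 1 := by
  unfold bc
  simp

theorem bc_eq_zero {r : ℕ} (a c : Fin r → ℕ) (h : ¬ a ≤ c) : bc a c = 0 := by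
  unfold bc
  rw [Pi.le_def] at h
  push Not at h
  obtain ⟨i, hi⟩ := h
  exact prod_eq_zero (mem_univ i) (Nat.choose_eq_zero_of_lt hi)

theorem bc_le {r : ℕ} (a c : Fin r → ℕ) (C : ℕ) (h : ∑ i, c i ≤ C) : bc a c ≤ 2 ^ C := by
  unfold bc
  calc ∏ i, (c i).choose (a i) ≤ ∏ i, 2 ^ (c i) :=
        prod_le_prod' fun i _ => Nat.choose_le_two_pow (c i) (a i)
    _ = 2 ^ ∑ i, c i := prod_pow_eq_pow_sum _ _ _
    _ ≤ 2 ^ C := Nat.pow_le_pow_right (by norm_num) h

theorem bin_exp1 {R : Type*} [CommRing R] (a e E : ℕ) (he : e ≤ E) (x : R) :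
    (e.choose a : R) * (1 + x) ^ e =
      ∑ m ∈ range (E + 1), (e.choose m : R) * ((m.choose a : R) * (1 + x) ^ a * x ^ (m - a)) := by
  have hz : ∀ m ∈ range (E + 1), m ∉ Ico a (e + 1) →
      (e.choose m : R) * ((m.choose a : R) * (1 + x) ^ a * x ^ (m - a)) = 0 := by
    intro m _ hm
    rw [mem_Ico, not_and_or] at hm
    rcases hm with hm | hm
    · rw [Nat.choose_eq_zero_of_lt (show m < a by omega)]
      simp
    · rw [Nat.choose_eq_zero_of_lt (show e < m by omega)]
      simp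
  rcases lt_or_ge e a with h | h
  · rw [Nat.choose_eq_zero_of_lt h, Nat.cast_zero, zero_mul]
    symm
    refine sum_eq_zero fun m hm => hz m hm ?_
    rw [mem_Ico]
    omega
  · have hsub : Ico a (e + 1) ⊆ range (E + 1) := by
      intro m hm
      rw [mem_Ico] at hm
      rw [mem_range]
      omega
    rw [← sum_subset hsub hz, sum_Ico_eq_sum_range]
    have h1 : (1 + x) ^ e = (1 + x) ^ a * ∑ k ∈ range (e - a + 1), x ^ k * ((e - a).choose k : R) := by
      have h2 : (1 + x) ^ (e - a) = ∑ k ∈ range (e - a + 1), x ^ k * ((e - a).choose k : R) := by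
        rw [add_comm, add_pow]
        refine sum_congr rfl fun k _ => ?_
        rw [one_pow, mul_one]
      rw [← h2, ← pow_add]
      congr 1
      omega
    rw [h1, mul_sum, mul_sum]
    have h3 : e + 1 - a = e - a + 1 := by omega
    rw [h3]
    refine sum_congr rfl fun k hk => ?_
    rw [mem_range] at hk
    have h4 : e.choose (a + k) * (a + k).choose a = e.choose a * (e - a).choose k := by
      have h5 := Nat.choose_mul (n := e) (k := a + k) (s := a) (by omega)
      rw [h5]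
      congr 2
      omega
    have h6 : ((e.choose (a + k) : R)) * ((a + k).choose a : R) =
        (e.choose a : R) * ((e - a).choose k : R) := by exact_mod_cast congrArg (Nat.cast : ℕ → R) h4
    have h7 : a + k - a = k := by omega
    rw [h7]
    calc (e.choose a : R) * ((1 + x) ^ a * (x ^ k * ((e - a).choose k : R)))
        = ((e.choose a : R) * ((e - a).choose k : R)) * ((1 + x) ^ a * x ^ k) := by ring
      _ = _ := by
        rw [← h6]
        ring

theorem bc_exp {r : ℕ} (a c : Fin r → ℕ) (E : ℕ) (hc : ∀ i, c i ≤ E) (x : Fin r → ℤ) :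
    (bc a c : ℤ) * ∏ i, (1 + x i) ^ (c i) =
      ∑ m ∈ Fintype.piFinset (fun _ : Fin r => range (E + 1)), (bc m c : ℤ) *
        ∏ i, (((m i).choose (a i) : ℤ) * (1 + x i) ^ (a i) * x i ^ (m i - a i)) := by
  unfold bc
  push_cast
  rw [← prod_mul_distrib]
  rw [prod_congr rfl fun i _ => bin_exp1 (a i) (c i) E (hc i) (x i)]
  rw [Finset.prod_univ_sum]
  refine sum_congr rfl fun m _ => ?_
  rw [prod_mul_distrib]

/-- Exponent vectors of total weight less than `X`. -/
def monw {r : ℕ} (wt : Fin r → ℕ) (X : ℕ) : Finset (Fin r → ℕ) :=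
  (Fintype.piFinset fun _ : Fin r => range X).filter fun a => ∑ i, wt i * a i < X

theorem mem_monw {r : ℕ} {wt : Fin r → ℕ} (hwt : ∀ i, 1 ≤ wt i) {X : ℕ} {a : Fin r → ℕ} :
    a ∈ monw wt X ↔ ∑ i, wt i * a i < X := by
  unfold monw
  rw [mem_filter, Fintype.mem_piFinset]
  refine ⟨fun h => h.2, fun h => ⟨fun i => mem_range.2 ?_, h⟩⟩
  have h1 : wt i * a i ≤ ∑ i, wt i * a i :=
    single_le_sum (f := fun i => wt i * a i) (fun j _ => Nat.zero_le _) (mem_univ i)
  have h2 : 1 * a i ≤ wt i * a i := Nat.mul_le_mul_right _ (hwt i)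
  omega

theorem monw_one (r X : ℕ) : monw (fun _ : Fin r => 1) X = mon r X := by
  unfold monw mon
  simp

/-- Expansion modulo a power of `q`, variables with weights. -/
theorem bc_congw {r : ℕ} (wt : Fin r → ℕ) (hwt : ∀ i, 1 ≤ wt i) (a : Fin r → ℕ) (X X1 : ℕ)
    (ha : ∑ i, wt i * a i ≤ X1) (q : ℤ) (x : Fin r → ℤ) (hx : ∀ i, q ^ wt i ∣ x i) :
    ∃ lam : (Fin r → ℕ) → ℤ, ∀ c : Fin r → ℕ,
      q ^ (X - X1) ∣ (bc a c : ℤ) * ∏ i, (1 + x i) ^ (c i) -
        ∑ m ∈ monw wt X, lam m * bc m c := by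
  refine ⟨fun m => ∏ i, (((m i).choose (a i) : ℤ) * (1 + x i) ^ (a i) * x i ^ (m i - a i)),
    fun c => ?_⟩
  rw [bc_exp a c (∑ i, c i + X) (fun i => (single_le_sum (f := c) (fun j _ => Nat.zero_le _)
    (mem_univ i)).trans (Nat.le_add_right _ _)) x]
  have hsub : monw wt X ⊆ Fintype.piFinset (fun _ : Fin r => range (∑ i, c i + X + 1)) := by
    intro m hm
    unfold monw at hm
    rw [mem_filter, Fintype.mem_piFinset] at hm
    rw [Fintype.mem_piFinset]
    intro i
    have := mem_range.1 (hm.1 i)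
    rw [mem_range]
    omega
  rw [← sum_sdiff hsub]
  have h1 : ∀ m ∈ monw wt X,
      (∏ i, (((m i).choose (a i) : ℤ) * (1 + x i) ^ (a i) * x i ^ (m i - a i))) * (bc m c : ℤ) =
      (bc m c : ℤ) * ∏ i, (((m i).choose (a i) : ℤ) * (1 + x i) ^ (a i) * x i ^ (m i - a i)) :=
    fun m _ => mul_comm _ _
  rw [sum_congr rfl h1, add_sub_cancel_right]
  refine dvd_sum fun m hm => Dvd.dvd.mul_left ?_ _
  rw [mem_sdiff, mem_monw hwt] at hm
  have h2 : q ^ (∑ i, wt i * (m i - a i)) ∣
      ∏ i, (((m i).choose (a i) : ℤ) * (1 + x i) ^ (a i) * x i ^ (m i - a i)) := by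
    rw [← prod_pow_eq_pow_sum]
    refine prod_dvd_prod_of_dvd _ _ fun i _ => Dvd.dvd.mul_left ?_ _
    rw [pow_mul]
    exact pow_dvd_pow_of_dvd (hx i) _
  refine (pow_dvd_pow q ?_).trans h2
  have h3 : ∑ i, wt i * m i ≤ ∑ i, wt i * (m i - a i) + ∑ i, wt i * a i := by
    rw [← sum_add_distrib]
    refine sum_le_sum fun i _ => ?_
    rw [← mul_add]
    exact Nat.mul_le_mul_left _ (by omega)
  omega

end Pool.Agent.Helper42.ZD
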