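import Mathlib
import Pool.Agent.Helper42.ZD.Mon

/-! Project ZD: divisibility of the determinant. -/

set_option autoImplicit false

namespace Pool.Agent.Helper42.ZD

open Finset

theorem det_dvd_of_cols {α β : Type} [Fintype α] [Fintype β] [DecidableEq α] [DecidableEq β]
    (M : Matrix (α ⊕ β) (α ⊕ β) ℤ) (Λ : α → β → ℤ) (q : ℤ)
    (h : ∀ i b, q ∣ M i (Sum.inr b) - ∑ a, Λ a b * M i (Sum.inl a)) :
    q ^ Fintype.card β ∣ M.det := by
  choose M' hM' using h
  let U : Matrix (α ⊕ β) (α ⊕ β) ℤ := Matrix.fromBlocks 1 (Matrix.of fun a b => - Λ a b) 0 1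
  have hU : U.det = 1 := by
    change (Matrix.fromBlocks 1 (Matrix.of fun a b => - Λ a b) 0 1).det = 1
    rw [Matrix.det_fromBlocks_zero₂₁]
    simp
  let N : Matrix (α ⊕ β) (α ⊕ β) ℤ :=
    Matrix.of fun i j => Sum.elim (fun a => M i (Sum.inl a)) (fun b => M' i b) j
  have hMN : M * U = N * Matrix.diagonal (Sum.elim (fun _ : α => (1 : ℤ)) (fun _ : β => q)) := by
    ext i j
    rw [Matrix.mul_diagonal, Matrix.mul_apply, Fintype.sum_sum_type]
    rcases j with a | b
    · simp [U, N, Matrix.fromBlocks_apply₁₁, Matrix.fromBlocks_apply₂₁, Matrix.one_apply]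
    · simp only [U, N, Matrix.fromBlocks_apply₁₂, Matrix.fromBlocks_apply₂₂, Matrix.one_apply,
        Matrix.of_apply, Sum.elim_inr, mul_neg, mul_ite, mul_one, mul_zero,
        Finset.sum_ite_eq', Finset.mem_univ, if_true, Finset.sum_neg_distrib]
      have h1 := hM' i b
      have h2 : ∑ x, M i (Sum.inl x) * Λ x b = ∑ a, Λ a b * M i (Sum.inl a) :=
        sum_congr rfl fun _ _ => mul_comm _ _
      rw [h2]
      linarith
  have h1 := congrArg Matrix.det hMN
  rw [Matrix.det_mul, Matrix.det_mul, hU, mul_one, Matrix.det_diagonal, Fintype.prod_sum_type] at h1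
  simp only [Sum.elim_inl, Sum.elim_inr, prod_const_one, one_mul, prod_const, card_univ] at h1
  rw [h1]
  exact Dvd.intro_left _ rfl

/-- The matrix with the columns `bc a`, `a ∈ A`, and `bc b * v`, `b ∈ B`. -/
def cmat {r : ℕ} {Pt : Type} (A B : Finset (Fin r → ℕ)) (f : Pt → Fin r → ℕ) (v : Pt → ℤ) :
    Matrix Pt ({a // a ∈ A} ⊕ {b // b ∈ B}) ℤ :=
  Matrix.of fun i j => Sum.elim (fun a : {a // a ∈ A} => (bc a.1 (f i) : ℤ))
    (fun b : {b // b ∈ B} => (bc b.1 (f i) : ℤ) * v i) j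

theorem cmat_dvd {r : ℕ} (wt : Fin r → ℕ) (hwt : ∀ i, 1 ≤ wt i) (X X1 : ℕ)
    (B : Finset (Fin r → ℕ)) (hB : ∀ b ∈ B, ∑ i, wt i * b i ≤ X1) (P : ℤ) (x : Fin r → ℤ)
    (hx : ∀ i, P ^ wt i ∣ x i) (w : ℤ)
    (f : ({a // a ∈ monw wt X} ⊕ {b // b ∈ B}) → Fin r → ℕ)
    (v : ({a // a ∈ monw wt X} ⊕ {b // b ∈ B}) → ℤ)
    (hv : ∀ i, P ^ (X - X1) ∣ v i - w * ∏ k, (1 + x k) ^ (f i k)) :
    P ^ ((X - X1) * B.card) ∣ (cmat (monw wt X) B f v).det := by
  classical
  choose lam hlam using fun b : {b // b ∈ B} =>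
    bc_congw wt hwt b.1 X X1 (hB b.1 b.2) P x hx
  have h := det_dvd_of_cols (cmat (monw wt X) B f v)
    (fun a b => w * lam b a.1) (P ^ (X - X1)) ?_
  · rwa [Fintype.card_coe, ← pow_mul] at h
  · intro i b
    have h1 := hlam b (f i)
    have h2 : cmat (monw wt X) B f v i (Sum.inr b) -
        ∑ a, (w * lam b a.1) * cmat (monw wt X) B f v i (Sum.inl a) =
        (bc b.1 (f i) : ℤ) * (v i - w * ∏ k, (1 + x k) ^ (f i k)) +
        w * ((bc b.1 (f i) : ℤ) * ∏ k, (1 + x k) ^ (f i k) -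
          ∑ m ∈ monw wt X, lam b m * bc m (f i)) := by
      have h3 : ∑ a : {a // a ∈ monw wt X},
          (w * lam b a.1) * cmat (monw wt X) B f v i (Sum.inl a) =
          w * ∑ m ∈ monw wt X, lam b m * bc m (f i) := by
        rw [mul_sum, ← sum_coe_sort (monw wt X)]
        refine sum_congr rfl fun a _ => ?_
        simp only [cmat, Matrix.of_apply, Sum.elim_inl]
        ring
      rw [h3]
      simp only [cmat, Matrix.of_apply, Sum.elim_inr]
      ring
    rw [h2]
    exact dvd_add (Dvd.dvd.mul_left (hv i) _) (Dvd.dvd.mul_left h1 _)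

theorem abs_det_le_cols {κ : Type} [Fintype κ] [DecidableEq κ] (B : Matrix κ κ ℝ) (c : κ → ℝ)
    (h : ∀ i j, |B i j| ≤ c j) :
    |B.det| ≤ (Nat.factorial (Fintype.card κ) : ℝ) * ∏ j, c j := by
  rw [Matrix.det_apply]
  refine (Finset.abs_sum_le_sum_abs _ _).trans ?_
  have h1 : ∀ σ ∈ (Finset.univ : Finset (Equiv.Perm κ)),
      |Equiv.Perm.sign σ • ∏ i, B (σ i) i| ≤ ∏ j, c j := by
    intro σ _
    have h2 : |Equiv.Perm.sign σ • ∏ i, B (σ i) i| = |∏ i, B (σ i) i| := by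
      rcases Int.units_eq_one_or (Equiv.Perm.sign σ) with h3 | h3 <;> rw [h3] <;> simp
    rw [h2, Finset.abs_prod]
    exact Finset.prod_le_prod (fun _ _ => abs_nonneg _) fun i _ => h _ _
  refine (Finset.sum_le_sum h1).trans ?_
  rw [Finset.sum_const, Finset.card_univ, Fintype.card_perm, nsmul_eq_mul]

/-- Size of the determinant. -/
theorem cmat_le {r C : ℕ} (A B : Finset (Fin r → ℕ))
    (f : ({a // a ∈ A} ⊕ {b // b ∈ B}) → Fin r → ℕ)
    (hf : ∀ i, ∑ k, f i k ≤ C)
    (v : ({a // a ∈ A} ⊕ {b // b ∈ B}) → ℤ) (h : ℝ)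
    (hh : ∀ i, |(v i : ℝ)| ≤ Real.exp h) (hdet : (cmat A B f v).det ≠ 0) :
    Real.log |((cmat A B f v).det : ℝ)| ≤ Real.log ((A.card + B.card).factorial : ℝ) +
      ((A.card : ℝ) + B.card) * C * Real.log 2 + B.card * h := by
  classical
  have h1 := abs_det_le_cols ((cmat A B f v).map (Int.cast : ℤ → ℝ))
    (Sum.elim (fun _ => (2 : ℝ) ^ C) (fun _ => (2 : ℝ) ^ C * Real.exp h)) (by
      intro i j
      have hb : ∀ a : Fin r → ℕ, |((bc a (f i) : ℤ) : ℝ)| ≤ (2 : ℝ) ^ C := by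
        intro a
        have := bc_le a (f i) C (hf i)
        rw [Int.cast_natCast, Nat.abs_cast]
        exact_mod_cast this
      rcases j with a | b
      · simp only [Matrix.map_apply, cmat, Matrix.of_apply, Sum.elim_inl]
        exact hb a.1
      · simp only [Matrix.map_apply, cmat, Matrix.of_apply, Sum.elim_inr]
        rw [Int.cast_mul, abs_mul]
        exact mul_le_mul (hb b.1) (hh i) (abs_nonneg _) (by positivity))
  have h2 : ((cmat A B f v).map (Int.cast : ℤ → ℝ)).det = (((cmat A B f v).det : ℤ) : ℝ) := by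
    have := (Int.castRingHom ℝ).map_det (cmat A B f v)
    simpa [RingHom.mapMatrix_apply] using this.symm
  rw [h2, Fintype.prod_sum_type] at h1
  simp only [Sum.elim_inl, Sum.elim_inr, prod_const, card_univ, Fintype.card_sum,
    Fintype.card_coe] at h1
  have h0 : 0 < |(((cmat A B f v).det : ℤ) : ℝ)| := by
    rw [abs_pos]
    exact_mod_cast hdet
  have h3 := Real.log_le_log h0 h1
  refine h3.trans (le_of_eq ?_)
  have hf0 : (((A.card + B.card).factorial : ℕ) : ℝ) ≠ 0 := by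
    exact_mod_cast Nat.factorial_ne_zero _
  rw [Real.log_mul hf0 (by positivity), Real.log_mul (by positivity) (by positivity),
    Real.log_pow, Real.log_pow, Real.log_pow, Real.log_mul (by positivity) (by positivity),
    Real.log_exp, Real.log_pow]
  ring

end Pool.Agent.Helper42.ZD
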