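import Mathlib
import Pool.Agent.Helper42.ZD.Det

/-! Project ZD: the core. -/

set_option autoImplicit false

namespace Pool.Agent.Helper42.ZD

open Finset

/-- If all maximal minors vanish, there is a linear relation between the columns. -/
theorem rank_relF {F Pt κ : Type} [Field F] [Fintype κ] [DecidableEq κ] (f : Pt → κ → F)
    (h : ∀ s : κ → Pt, (Matrix.of fun i j => f (s i) j).det = 0) :
    ∃ q : κ → F, q ≠ 0 ∧ ∀ w, ∑ j, q j * f w j = 0 := by
  classical
  have hV : Submodule.span F (Set.range f) < ⊤ := by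
    rw [lt_top_iff_ne_top]
    intro htop
    obtain ⟨b, hbs, hspan, hli⟩ := exists_linearIndependent F (Set.range f)
    rw [htop] at hspan
    have hspan' : (⊤ : Submodule F (κ → F)) ≤
        Submodule.span F (Set.range (Subtype.val : b → κ → F)) := by
      rw [Subtype.range_coe, hspan]
    let B : Module.Basis b F (κ → F) := Module.Basis.mk hli hspan'
    have hBfin : Fintype b := FiniteDimensional.fintypeBasisIndex B
    have hcard : Fintype.card κ = Fintype.card b := by
      rw [← Module.finrank_eq_card_basis B, Module.finrank_fintype_fun_eq_card]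
    let e : κ ≃ b := Fintype.equivOfCardEq hcard
    have hch : ∀ i : κ, ∃ w : Pt, f w = (e i : κ → F) := fun i => hbs (e i).2
    choose s hs using hch
    have hrow : LinearIndependent F (fun i : κ => f (s i)) := by
      have h1 : (fun i : κ => f (s i)) = (Subtype.val : b → κ → F) ∘ e := by
        funext i
        exact hs i
      rw [h1]
      exact hli.comp e e.injective
    have hunit : IsUnit (Matrix.of fun i j => f (s i) j) :=
      Matrix.linearIndependent_rows_iff_isUnit.mp hrow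
    rw [Matrix.isUnit_iff_isUnit_det, h s] at hunit
    exact not_isUnit_zero hunit
  obtain ⟨g, hf0, hf⟩ := Submodule.exists_le_ker_of_lt_top _ hV
  have hrep : ∀ v : κ → F, g v = ∑ j, g (Pi.single j 1) * v j := by
    intro v
    rw [LinearMap.pi_apply_eq_sum_univ g v]
    refine Finset.sum_congr rfl fun j _ => ?_
    rw [smul_eq_mul, mul_comm]
    congr 2
    funext i
    by_cases hij : j = i
    · subst hij; simp
    · simp [hij, Ne.symm hij]
  refine ⟨fun j => g (Pi.single j 1), ?_, ?_⟩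
  · intro h0
    apply hf0
    ext v
    have h1 : ∀ j, g (Pi.single j 1) = 0 := fun j => congrFun h0 j
    simp [h1]
  · intro w
    rw [← hrep]
    exact hf (Submodule.subset_span ⟨w, rfl⟩)

/-- The size against the divisibility of one non-zero minor. -/
theorem core_ineq {r : ℕ} (wt : Fin r → ℕ) (hwt : ∀ i, 1 ≤ wt i) (X X1 C P : ℕ) (hX : X1 ≤ X)
    (hP : 1 ≤ P) (B : Finset (Fin r → ℕ)) (hB : ∀ b ∈ B, ∑ i, wt i * b i ≤ X1)
    (f : ({a // a ∈ monw wt X} ⊕ {b // b ∈ B}) → Fin r → ℕ) (hS : ∀ i, ∑ k, f i k ≤ C)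
    (v : ({a // a ∈ monw wt X} ⊕ {b // b ∈ B}) → ℤ)
    (g : Fin r → ℤ) (w : ℤ) (hg : ∀ i, (P : ℤ) ^ wt i ∣ g i - 1)
    (hv : ∀ i, (P : ℤ) ^ (X - X1) ∣ v i - w * ∏ k, g k ^ f i k) (h : ℝ)
    (hh : ∀ i, |(v i : ℝ)| ≤ Real.exp h) (hdet : (cmat (monw wt X) B f v).det ≠ 0) :
    B.card * ((X : ℝ) - X1) * Real.log P ≤
      Real.log (((monw wt X).card + B.card).factorial : ℝ) +
        (((monw wt X).card : ℝ) + B.card) * C * Real.log 2 + B.card * h := by
  have h2 := cmat_le (monw wt X) B f (C := C) hS v h hh hdet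
  have h3 := cmat_dvd wt hwt X X1 B hB (P : ℤ) (fun i => g i - 1) hg w f v (fun i => by
    have := hv i
    simpa using this)
  have h4 := Int.le_of_dvd (abs_pos.2 hdet) ((dvd_abs _ _).2 h3)
  have hP0 : (0 : ℝ) < P := by exact_mod_cast hP
  have h5 : (P : ℝ) ^ ((X - X1) * B.card) ≤ |((cmat (monw wt X) B f v).det : ℝ)| := by
    exact_mod_cast h4
  have h6 := Real.log_le_log (pow_pos hP0 _) h5
  rw [Real.log_pow] at h6
  have h7 : (((X - X1) * B.card : ℕ) : ℝ) = ((X : ℝ) - X1) * B.card := by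
    rw [Nat.cast_mul, Nat.cast_sub hX]
  rw [h7] at h6
  have h8 : B.card * ((X : ℝ) - X1) * Real.log P = ((X : ℝ) - X1) * B.card * Real.log P := by
    ring
  rw [h8]
  linarith

/-- Core: if the size is too small, the columns are dependent on `S`, over every field. -/
theorem core_relw {F : Type} [Field F] {r : ℕ} (wt : Fin r → ℕ) (hwt : ∀ i, 1 ≤ wt i)
    (X X1 C P : ℕ) (hX : X1 ≤ X)
    (hP : 1 ≤ P) (B : Finset (Fin r → ℕ)) (hB : ∀ b ∈ B, ∑ i, wt i * b i ≤ X1)
    {Pt : Type} (f : Pt → Fin r → ℕ) (hS : ∀ i, ∑ k, f i k ≤ C) (v : Pt → ℤ)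
    (g : Fin r → ℤ) (w : ℤ) (hg : ∀ i, (P : ℤ) ^ wt i ∣ g i - 1)
    (hv : ∀ i, (P : ℤ) ^ (X - X1) ∣ v i - w * ∏ k, g k ^ f i k) (h : ℝ)
    (hh : ∀ i, |(v i : ℝ)| ≤ Real.exp h)
    (hlt : Real.log (((monw wt X).card + B.card).factorial : ℝ) +
      (((monw wt X).card : ℝ) + B.card) * C * Real.log 2 + B.card * h <
      B.card * ((X : ℝ) - X1) * Real.log P) :
    ∃ p q : (Fin r → ℕ) → F, ((∃ a ∈ monw wt X, p a ≠ 0) ∨ ∃ b ∈ B, q b ≠ 0) ∧
      ∀ i, ∑ a ∈ monw wt X, p a * (bc a (f i) : F) +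
        (∑ b ∈ B, q b * (bc b (f i) : F)) * (v i : F) = 0 := by
  classical
  have hmin : ∀ s : ({a // a ∈ monw wt X} ⊕ {b // b ∈ B}) → Pt,
      (Matrix.of fun i j => ((cmat (monw wt X) B f v (s i) j : ℤ) : F)).det = 0 := by
    intro s
    have h1 : (Matrix.of fun i j => ((cmat (monw wt X) B f v (s i) j : ℤ) : F)).det =
        (((cmat (monw wt X) B (fun i => f (s i)) (fun i => v (s i))).det : ℤ) : F) := by
      have := (Int.castRingHom F).map_det
        (cmat (monw wt X) B (fun i => f (s i)) (fun i => v (s i)))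
      rw [eq_comm]
      exact this
    rw [h1]
    by_contra hne
    have hdet : (cmat (monw wt X) B (fun i => f (s i)) (fun i => v (s i))).det ≠ 0 := by
      intro h0
      rw [h0, Int.cast_zero] at hne
      exact hne rfl
    have h2 := core_ineq wt hwt X X1 C P hX hP B hB (fun i => f (s i)) (fun i => hS _)
      (fun i => v (s i)) g w hg (fun i => hv _) h (fun i => hh _) hdet
    linarith
  obtain ⟨q, hq0, hq⟩ := rank_relF
    (fun (c : Pt) j => ((cmat (monw wt X) B f v c j : ℤ) : F)) hmin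
  refine ⟨fun a => if ha : a ∈ monw wt X then q (Sum.inl ⟨a, ha⟩) else 0,
    fun b => if hb : b ∈ B then q (Sum.inr ⟨b, hb⟩) else 0, ?_, ?_⟩
  · obtain ⟨j, hj⟩ := Function.ne_iff.1 hq0
    rcases j with a | b
    · left
      refine ⟨a.1, a.2, ?_⟩
      beta_reduce
      rw [dif_pos a.2]
      exact hj
    · right
      refine ⟨b.1, b.2, ?_⟩
      beta_reduce
      rw [dif_pos b.2]
      exact hj
  · intro c
    have h1 := hq c
    rw [Fintype.sum_sum_type] at h1
    rw [← sum_coe_sort (monw wt X), ← sum_coe_sort B, sum_mul]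
    refine Eq.trans ?_ h1
    congr 1
    · refine sum_congr rfl fun a _ => ?_
      beta_reduce
      rw [dif_pos a.2]
      simp [cmat]
    · refine sum_congr rfl fun b _ => ?_
      beta_reduce
      rw [dif_pos b.2]
      simp [cmat]
      ring

end Pool.Agent.Helper42.ZD
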