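import Mathlib
import Pool.Agent.Helper42.ZD.Core

/-! Project ZD: the core in terms of polynomials. -/

set_option autoImplicit false

namespace Pool.Agent.Helper42.ZD

open Finset

/-- The binomial polynomial of one variable. -/
noncomputable def bp1 {r : ℕ} (i : Fin r) (k : ℕ) : MvPolynomial (Fin r) ℚ :=
  MvPolynomial.C ((k.factorial : ℚ)⁻¹) * ∏ j ∈ range k, (MvPolynomial.X i - MvPolynomial.C (j : ℚ))

theorem bp1_eval {r : ℕ} (i : Fin r) (k : ℕ) (c : Fin r → ℕ) :
    MvPolynomial.eval (fun i => (c i : ℚ)) (bp1 i k) = ((c i).choose k : ℚ) := by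
  unfold bp1
  rw [map_mul, MvPolynomial.eval_C, map_prod]
  have h1 : ∏ j ∈ range k, MvPolynomial.eval (fun i => (c i : ℚ))
      (MvPolynomial.X i - MvPolynomial.C (j : ℚ)) = ((c i).descFactorial k : ℚ) := by
    rw [← descPochhammer_eval_eq_descFactorial, descPochhammer_eval_eq_prod_range]
    refine prod_congr rfl fun j _ => ?_
    rw [map_sub, MvPolynomial.eval_X, MvPolynomial.eval_C]
  rw [h1, Nat.descFactorial_eq_factorial_mul_choose, Nat.cast_mul, ← mul_assoc,
    inv_mul_cancel₀ (by exact_mod_cast Nat.factorial_ne_zero k), one_mul]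

theorem bp1_deg {r : ℕ} (i : Fin r) (k : ℕ) : (bp1 i k).totalDegree ≤ k := by
  unfold bp1
  refine (MvPolynomial.totalDegree_mul _ _).trans ?_
  rw [MvPolynomial.totalDegree_C, zero_add]
  refine (MvPolynomial.totalDegree_finsetProd _ _).trans ?_
  calc ∑ j ∈ range k, (MvPolynomial.X i - MvPolynomial.C (j : ℚ) :
        MvPolynomial (Fin r) ℚ).totalDegree ≤ ∑ j ∈ range k, 1 := by
        refine sum_le_sum fun j _ => (MvPolynomial.totalDegree_sub _ _).trans ?_
        rw [MvPolynomial.totalDegree_X, MvPolynomial.totalDegree_C]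
        simp
    _ = k := by simp

/-- The binomial polynomial. -/
noncomputable def bp {r : ℕ} (a : Fin r → ℕ) : MvPolynomial (Fin r) ℚ := ∏ i, bp1 i (a i)

theorem bp_eval {r : ℕ} (a c : Fin r → ℕ) :
    MvPolynomial.eval (fun i => (c i : ℚ)) (bp a) = (bc a c : ℚ) := by
  unfold bp bc
  rw [map_prod, Nat.cast_prod]
  exact prod_congr rfl fun i _ => bp1_eval i (a i) c

theorem bp_deg {r : ℕ} (a : Fin r → ℕ) : (bp a).totalDegree ≤ ∑ i, a i := by
  unfold bp
  exact (MvPolynomial.totalDegree_finsetProd _ _).trans (sum_le_sum fun i _ => bp1_deg i (a i))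

/-- Linear independence of the functions `bc a`. -/
theorem bc_indep {r : ℕ} (A : Finset (Fin r → ℕ)) (p : (Fin r → ℕ) → ℚ)
    (h : ∀ c : Fin r → ℕ, ∑ a ∈ A, p a * (bc a c : ℚ) = 0) : ∀ a ∈ A, p a = 0 := by
  classical
  intro a
  induction hn : ∑ i, a i using Nat.strong_induction_on generalizing a with
  | _ n ih =>
    intro ha
    have h1 := h a
    rw [sum_eq_single a] at h1
    · rwa [bc_self, Nat.cast_one, mul_one] at h1
    · intro b hb hba
      by_cases hle : b ≤ a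
      · have hlt : ∑ i, b i < n := by
          rw [← hn]
          obtain ⟨i, hi⟩ := Function.ne_iff.1 hba
          exact sum_lt_sum (fun j _ => hle j) ⟨i, mem_univ i, lt_of_le_of_ne (hle i) hi⟩
        rw [ih _ hlt b rfl hb, zero_mul]
      · rw [bc_eq_zero b a hle, Nat.cast_zero, mul_zero]
    · intro h2
      exact absurd ha h2

theorem poly_ne {r : ℕ} (A : Finset (Fin r → ℕ)) (p : (Fin r → ℕ) → ℚ)
    (h : ∃ a ∈ A, p a ≠ 0) : ∑ a ∈ A, MvPolynomial.C (p a) * bp a ≠ 0 := by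
  intro h0
  obtain ⟨a, ha, hpa⟩ := h
  apply hpa
  refine bc_indep A p (fun c => ?_) a ha
  have h1 := congrArg (MvPolynomial.eval (fun i => (c i : ℚ))) h0
  rw [map_sum, map_zero] at h1
  rw [← h1]
  refine sum_congr rfl fun a _ => ?_
  rw [map_mul, MvPolynomial.eval_C, bp_eval]

theorem poly_deg {r X : ℕ} (hX : 1 ≤ X) (p : (Fin r → ℕ) → ℚ) :
    (∑ a ∈ mon r X, MvPolynomial.C (p a) * bp a).totalDegree < X := by
  refine (MvPolynomial.totalDegree_finsetSum _ _).trans_lt ?_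
  rw [Finset.sup_lt_iff (by exact hX)]
  intro a ha
  refine (MvPolynomial.totalDegree_mul _ _).trans_lt ?_
  rw [MvPolynomial.totalDegree_C, zero_add]
  exact (bp_deg a).trans_lt (mem_mon.1 ha)

/-- THE CORE: if the size is too small there is a polynomial relation. -/
theorem core_rel {r : ℕ} (X X1 C P : ℕ) (hX1 : 1 ≤ X1) (hX : X1 ≤ X) (hP : 1 ≤ P)
    (S : Finset (Fin r → ℕ)) (hS : ∀ c ∈ S, ∑ i, c i ≤ C) (v : (Fin r → ℕ) → ℤ)
    (g : Fin r → ℤ) (w : ℤ) (hg : ∀ i, (P : ℤ) ∣ g i - 1)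
    (hv : ∀ c ∈ S, (P : ℤ) ^ X ∣ v c - w * ∏ i, g i ^ c i) (h : ℝ)
    (hh : ∀ c ∈ S, |(v c : ℝ)| ≤ Real.exp h)
    (hlt : Real.log (((mon r X).card + (mon r X1).card).factorial : ℝ) +
      (((mon r X).card : ℝ) + (mon r X1).card) * C * Real.log 2 + (mon r X1).card * h <
      (mon r X1).card * ((X : ℝ) - X1) * Real.log P) :
    ∃ p q : MvPolynomial (Fin r) ℚ, (p ≠ 0 ∨ q ≠ 0) ∧ p.totalDegree < X ∧ q.totalDegree < X1 ∧
      ∀ c ∈ S, MvPolynomial.eval (fun i => (c i : ℚ)) p +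
        MvPolynomial.eval (fun i => (c i : ℚ)) q * (v c : ℚ) = 0 := by
  obtain ⟨p, q, hpq, hr⟩ := core_relw (F := ℚ) (fun _ : Fin r => 1) (fun _ => le_refl 1) X X1 C P
    hX hP (mon r X1) (fun b hb => by
      have := mem_mon.1 hb
      simp only [one_mul]
      omega) (fun c : {c // c ∈ S} => c.1) (fun c => hS _ c.2) (fun c => v c.1) g w
    (fun i => by rw [pow_one]; exact hg i)
    (fun c => (pow_dvd_pow _ (Nat.sub_le _ _)).trans (hv _ c.2)) h (fun c => hh _ c.2)
    (by rw [monw_one]; exact hlt)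
  rw [monw_one] at hpq
  refine ⟨∑ a ∈ mon r X, MvPolynomial.C (p a) * bp a,
    ∑ a ∈ mon r X1, MvPolynomial.C (q a) * bp a, ?_, poly_deg (hX1.trans hX) p,
    poly_deg hX1 q, ?_⟩
  · rcases hpq with h1 | h1
    · exact Or.inl (poly_ne _ _ h1)
    · exact Or.inr (poly_ne _ _ h1)
  · intro c hc
    have h1 := hr ⟨c, hc⟩
    rw [monw_one] at h1
    rw [map_sum, map_sum]
    have h2 : ∀ (A : Finset (Fin r → ℕ)) (p : (Fin r → ℕ) → ℚ),
        ∑ a ∈ A, MvPolynomial.eval (fun i => (c i : ℚ)) (MvPolynomial.C (p a) * bp a) =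
        ∑ a ∈ A, p a * (bc a c : ℚ) := by
      intro A p
      refine sum_congr rfl fun a _ => ?_
      rw [map_mul, MvPolynomial.eval_C, bp_eval]
    rw [h2, h2]
    exact h1

end Pool.Agent.Helper42.ZD
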